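import Pool.Agent.Lib.MP_f0c157_lc.Defs

/-!
# MP_d5150c_lc: the class `UP` with advice
-/

set_option autoImplicit false

namespace Pool.Agent.Lib.MP_d5150c_lc.H85

open N68a2faeb N793a5b8e Pool.Agent.Lib.MP_f0c157_lc

/-- The class of the languages which are in `UP` with the advice string `a n` for the inputs of
length `n`: the verifier gets the advice string, the input and the witness, and it has at most one
witness on every input together with the advice string belonging to its length. -/
def UPAdvice (a : ℕ → List Bool) : DecisionComplexityClass :=
  { L | ∃ (p : Polynomial ℕ) (R : List Bool × (List Bool × List Bool) → Bool),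
      IsPolyTime R ∧
      (∀ x, L x ↔ ∃ w : List Bool, w.length ≤ p.eval x.length ∧ R (a x.length, x, w)) ∧
      ∀ x w w', w.length ≤ p.eval x.length → w'.length ≤ p.eval x.length →
        R (a x.length, x, w) → R (a x.length, x, w') → w = w' }

/-- The infinite bit sequences `α` for which, for some polynomial `q`, there is a language in `UP`
with the first `q n` bits of `α` as advice for the inputs of length `n` to which every language of
`UP` is many-one reducible in polynomial time, without advice. -/
def HelpfulForUP : Set (ℕ → Bool) :=
  {α | ∃ q : Polynomial ℕ, ∃ K ∈ UPAdvice (fun n => firstBits α (q.eval n)),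
    ∀ A ∈ UP, ManyOneReducible A K}

/-- An advice bit for the inputs of length `n`: the bit number `i = n - ⌊√n⌋ ^ 2` of the infinite
sequence `α` if `i < s n`, and `0` otherwise. It depends on the first `s n` bits of `α` only. -/
def slowBit (α : ℕ → Bool) (s : ℕ → ℕ) (n : ℕ) : Bool :=
  decide (n - Nat.sqrt n ^ 2 < s n) && α (n - Nat.sqrt n ^ 2)

/-- The verifier `R` with witnesses of length at most `p |x|` and with the advice bit `b |x|`, which
it reads as an additional first bit of the input `x`, has at most one witness on every input, and
every language of `UP` is many-one reducible in polynomial time, without advice, to the language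
which it defines. -/
def IsHardVerifier (R : List Bool × List Bool → Bool) (p : Polynomial ℕ) (b : ℕ → Bool) : Prop :=
  (∀ x w w' : List Bool, w.length ≤ p.eval x.length → w'.length ≤ p.eval x.length →
    R (b x.length :: x, w) → R (b x.length :: x, w') → w = w') ∧
  ∀ A ∈ UP, ∃ f : List Bool → List Bool, IsPolyTime f ∧ ∀ x, A x ↔
    ∃ w : List Bool, w.length ≤ p.eval (f x).length ∧ R (b (f x).length :: f x, w)

end Pool.Agent.Lib.MP_d5150c_lc.H85
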