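import Pool.Agent.Lib.MP_f0c157_lc.Slow
import Pool.Agent.Lib.MP_f0c157_lc.Sparse
import Pool.Agent.Lib.MP_d5150c_lc.H85.Defs

/-!
# MP_d5150c_lc: one slowly changing advice bit
-/

set_option autoImplicit false

namespace Pool.Agent.Lib.MP_d5150c_lc.H85

open Pool.Agent.PolyTime Pool.Agent.Lib.MP_d5150c_lc Pool.Agent.Lib.MP_f0c157_lc N487b59b3
  N68a2faeb N793a5b8e Filter

/-! ### Square roots -/

theorem filter_lt_range (m : ℕ) : ∀ n, ((List.range n).filter fun j => decide (j < m)) =
    List.range (min m n)
  | 0 => by simp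
  | n + 1 => by
    rw [List.range_succ, List.filter_append, filter_lt_range m n]
    rcases Nat.lt_or_ge n m with h | h
    · have h1 : min m (n + 1) = min m n + 1 := by omega
      have h2 : min m n = n := by omega
      rw [h1, h2, List.range_succ]
      simp [h]
    · have h1 : min m (n + 1) = min m n := by omega
      rw [h1]
      simp [Nat.not_lt.2 h]

theorem sqrt_eq_length (n : ℕ) :
    ((List.range n).filter fun j => decide ((j + 1) * (j + 1) ≤ n)).length = Nat.sqrt n := by
  have h1 : ((List.range n).filter fun j => decide ((j + 1) * (j + 1) ≤ n)) =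
      ((List.range n).filter fun j => decide (j < Nat.sqrt n)) := by
    refine List.filter_congr fun j _ => ?_
    have : (j + 1) * (j + 1) ≤ n ↔ j < Nat.sqrt n := by
      rw [← Nat.succ_le_iff, Nat.le_sqrt]
    simp only [this]
  rw [h1, filter_lt_range, List.length_range]
  exact min_eq_left (Nat.sqrt_le_self n)

theorem poly_sqrt {γ : Type} [Enc γ] {n : γ → ℕ} (hn : PolyFn n) :
    PolyFn (fun c => Nat.sqrt (n c)) := by
  have h : PolyFn (fun c => ((List.range (n c)).filter
      fun j => decide ((j + 1) * (j + 1) ≤ n c)).length) := by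
    refine PolyFn.length (PolyFn.filter
      (p := fun (c : γ) (j : ℕ) => decide ((j + 1) * (j + 1) ≤ n c)) ?_ (PolyFn.range hn))
    exact PolyFn.decide_le (PolyFn.mul (PolyFn.succ PolyFn.snd) (PolyFn.succ PolyFn.snd))
      (hn.comp PolyFn.fst)
  exact h.of_eq fun c => sqrt_eq_length _

/-- the index of a length -/
def ix (n : ℕ) : ℕ := n - Nat.sqrt n ^ 2

theorem poly_ix {γ : Type} [Enc γ] {n : γ → ℕ} (hn : PolyFn n) : PolyFn (fun c => ix (n c)) :=
  PolyFn.sub hn (PolyFn.pow (poly_sqrt hn) 2)

theorem ix_eq {M i : ℕ} (h : i ≤ 2 * M) : ix (M * M + i) = i := by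
  have h1 : Nat.sqrt (M * M + i) = M := by
    rw [Nat.sqrt_add_eq]
    omega
  unfold ix
  rw [h1, pow_two]
  omega

/-! ### Unambiguous machines -/

/-- the clocked machine `e` accepts `x` with witness `w` within `t` steps -/
def acc (e : Prog × ℕ) (x w : List Bool) (t : ℕ) : Bool :=
  clock (encP (x, w)).length e.2 t && (runT e.1 (encP (x, w)) t).headD false

/-- unambiguous clocked machines -/
def SoundU (e : Prog × ℕ) : Prop :=
  ∀ (x w w' : List Bool) (t t' : ℕ), acc e x w t = true → acc e x w' t' = true → w = w'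

/-- the advice sequence -/
noncomputable def seqU (n : ℕ) : Bool :=
  letI := Classical.propDecidable (∃ e, cidx e = n ∧ SoundU e)
  decide (∃ e, cidx e = n ∧ SoundU e)

theorem seqU_iff (e : Prog × ℕ) : seqU (cidx e) = true ↔ SoundU e := by
  unfold seqU
  rw [@decide_eq_true_iff _ (Classical.propDecidable _)]
  constructor
  · rintro ⟨e', h, h'⟩
    rw [cidx_inj h] at h'
    exact h'
  · intro h
    exact ⟨e, rfl, h⟩

/-- the test of the universal verifier -/
def tst (z w : List Bool) : Bool :=
  decide (capVal (z.length + 1) (bits (unbits Arg z).1 ++ [true]) = ix z.length) &&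
    acc (unbits Arg z).1 (unbits Arg z).2.1 w (unbits Arg z).2.2

/-- the universal verifier -/
def RU (c : List Bool × List Bool) : Bool := c.1.headD false && tst c.1.tail c.2

theorem poly_acc {γ : Type} [Enc γ] {e : γ → Prog × ℕ} {x w : γ → List Bool} {t : γ → ℕ}
    (he : PolyFn e) (hx : PolyFn x) (hw : PolyFn w) (ht : PolyFn t) :
    PolyFn (fun c => acc (e c) (x c) (w c) (t c)) := by
  have h0 : PolyFn (fun c => encP (x c, w c)) := poly_encP hx hw
  have h1 : PolyFn (fun c => clock (encP (x c, w c)).length (e c).2 (t c)) :=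
    poly_clock (PolyFn.length h0) (PolyFn.snd.comp he) ht
  have h2 : PolyFn (fun c => (runT (e c).1 (encP (x c, w c)) (t c)).headD false) :=
    PolyFn.headD (poly_runT (PolyFn.fst.comp he) h0 ht) (PolyFn.const false)
  unfold acc
  exact PolyFn.and h1 h2

theorem poly_tst {γ : Type} [Enc γ] {z w : γ → List Bool} (hz : PolyFn z) (hw : PolyFn w) :
    PolyFn (fun c => tst (z c) (w c)) := by
  have ha : PolyFn (fun c => unbits Arg (z c)) := poly_unbits.comp hz
  have he : PolyFn (fun c => (unbits Arg (z c)).1) := PolyFn.fst.comp ha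
  have hx : PolyFn (fun c => (unbits Arg (z c)).2.1) := PolyFn.fst.comp (PolyFn.snd.comp ha)
  have ht : PolyFn (fun c => (unbits Arg (z c)).2.2) := PolyFn.snd.comp (PolyFn.snd.comp ha)
  have hl := PolyFn.length hz
  have h1 : PolyFn (fun c => decide (capVal ((z c).length + 1)
      (bits (unbits Arg (z c)).1 ++ [true]) = ix (z c).length)) :=
    PolyFn.decide_eq_nat (PolyFn.capVal (PolyFn.succ hl)
      (PolyFn.append (poly_bits he) (PolyFn.const [true]))) (poly_ix hl)
  have h2 := poly_acc he hx hw ht
  unfold tst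
  exact PolyFn.and h1 h2

theorem poly_RU : PolyFn RU := by
  have h1 : PolyFn (fun c : List Bool × List Bool => c.1.headD false) :=
    PolyFn.headD PolyFn.fst (PolyFn.const false)
  have h2 : PolyFn (fun c : List Bool × List Bool => tst c.1.tail c.2) :=
    poly_tst (PolyFn.tail PolyFn.fst) PolyFn.snd
  exact PolyFn.and h1 h2

theorem RU_cons (b : Bool) (z w : List Bool) : RU (b :: z, w) = true ↔ b = true ∧ tst z w = true := by
  unfold RU
  simp [Bool.and_eq_true]

theorem tst_iff (z w : List Bool) : tst z w = true ↔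
    cidx (unbits Arg z).1 = ix z.length ∧
      acc (unbits Arg z).1 (unbits Arg z).2.1 w (unbits Arg z).2.2 = true := by
  unfold tst
  rw [Bool.and_eq_true, decide_eq_true_iff, capVal_eq]
  have h1 : binVal (bits (unbits Arg z).1 ++ [true]) = cidx (unbits Arg z).1 := rfl
  have h2 : ix z.length ≤ z.length := by unfold ix; omega
  rw [h1]
  constructor
  · rintro ⟨h3, h4⟩
    exact ⟨by omega, h4⟩
  · rintro ⟨h3, h4⟩
    exact ⟨by omega, h4⟩

/-- every language of `UP` has an unambiguous clocked machine -/
theorem exists_clocked {A : List Bool → Bool} (hA : A ∈ UP) :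
    ∃ (e : Prog × ℕ) (p : Polynomial ℕ), SoundU e ∧
      ∀ (x : List Bool) (t : ℕ), (6 * x.length + 1 + 3 * p.eval x.length) ^ e.2 + e.2 ≤ t →
        (A x = true ↔ ∃ w : List Bool, w.length ≤ p.eval x.length ∧ acc e x w t = true) ∧
        ∀ w, acc e x w t = true → w.length ≤ p.eval x.length := by
  obtain ⟨p, R, hR, hAR, hu⟩ := hA
  have hR' := polyFn_of_isPolyTime_pred hR
  have hdec : PolyFn (fun z : List Bool => decP z) := poly_decP PolyFn.id
  have hf : IsPolyTime (fun z : List Bool =>
      [decide ((decP z).2.length ≤ p.eval (decP z).1.length) && R (decP z)]) := by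
    refine isPolyTime_fun (PolyFn.cons (PolyFn.and (PolyFn.decide_le (PolyFn.length
      (PolyFn.snd.comp hdec)) (poly_eval p (PolyFn.length (PolyFn.fst.comp hdec)))) ?_)
      (PolyFn.const []))
    exact hR'.comp hdec
  obtain ⟨pr, k, hk⟩ := exists_code hf
  have hacc : ∀ x w t, acc (pr, k) x w t = true →
      w.length ≤ p.eval x.length ∧ R (x, w) = true := by
    intro x w t h
    unfold acc at h
    rw [Bool.and_eq_true, clock_iff] at h
    obtain ⟨h1, h2⟩ := h
    rw [hk _ _ h1, decP_encP] at h2
    simp only [List.headD_cons, Bool.and_eq_true, decide_eq_true_eq] at h2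
    exact h2
  refine ⟨(pr, k), p, ?_, ?_⟩
  · intro x w w' t t' h h'
    obtain ⟨h1, h2⟩ := hacc _ _ _ h
    obtain ⟨h1', h2'⟩ := hacc _ _ _ h'
    exact hu x w w' h1 h1' h2 h2'
  · intro x t ht
    refine ⟨?_, fun w hw => (hacc _ _ _ hw).1⟩
    constructor
    · intro h
      obtain ⟨w, hw, hRw⟩ := (hAR x).1 h
      refine ⟨w, hw, ?_⟩
      have hlen : (encP (x, w)).length ^ k + k ≤ t := by
        refine le_trans ?_ ht
        have : (encP (x, w)).length ≤ 6 * x.length + 1 + 3 * p.eval x.length := by
          rw [encP_length]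
          dsimp only
          omega
        have h2 := Nat.pow_le_pow_left this k
        dsimp only
        omega
      unfold acc
      rw [Bool.and_eq_true, clock_iff]
      refine ⟨hlen, ?_⟩
      dsimp only
      rw [hk _ _ hlen, decP_encP]
      simp only [List.headD_cons, Bool.and_eq_true, decide_eq_true_eq]
      exact ⟨hw, hRw⟩
    · rintro ⟨w, _, hw⟩
      obtain ⟨h1, h2⟩ := hacc _ _ _ hw
      exact (hAR x).2 ⟨w, h1, h2⟩

theorem main_slowBit : ∃ (R : List Bool × List Bool → Bool) (p : Polynomial ℕ) (α : ℕ → Bool),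
    IsPolyTime R ∧ ∀ s : ℕ → ℕ, Tendsto s atTop atTop → IsHardVerifier R p (slowBit α s) := by
  refine ⟨RU, Polynomial.X, seqU, isPolyTime_of_polyFn poly_RU, fun s hs => ⟨?_, ?_⟩⟩
  · intro z w w' _ _ h h'
    have hw : RU (slowBit seqU s z.length :: z, w) = true := h
    have hw' : RU (slowBit seqU s z.length :: z, w') = true := h'
    rw [RU_cons, tst_iff] at hw hw'
    obtain ⟨h1, h2, h3⟩ := hw
    obtain ⟨_, _, h3'⟩ := hw'
    unfold slowBit at h1
    rw [Bool.and_eq_true] at h1
    have h4 : seqU (cidx (unbits Arg z).1) = true := by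
      rw [h2]; exact h1.2
    exact (seqU_iff _).1 h4 _ _ _ _ _ h3 h3'
  · intro A hA
    obtain ⟨e, p, hsound, he⟩ := exists_clocked hA
    obtain ⟨N, hN⟩ := eventually_atTop.1 (hs.eventually_gt_atTop (cidx e))
    -- the number of steps, the argument, the padding
    set T : List Bool → ℕ := fun x => (6 * x.length + 1 + 3 * p.eval x.length) ^ e.2 + e.2 +
      p.eval x.length with hT
    set a : List Bool → Arg := fun x => (e, x, T x) with ha
    set M : List Bool → ℕ := fun x => (bits (a x)).length + cidx e + N + 1 with hM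
    have hTp : PolyFn T := by
      have hx : PolyFn (fun x : List Bool => x.length) := PolyFn.length PolyFn.id
      have hp := poly_eval p hx
      exact PolyFn.add (PolyFn.add (PolyFn.pow (PolyFn.add (PolyFn.add (PolyFn.mul
        (PolyFn.const 6) hx) (PolyFn.const 1)) (PolyFn.mul (PolyFn.const 3) hp)) _)
        (PolyFn.const _)) hp
    have hap : PolyFn a := (PolyFn.const e).pair (PolyFn.id.pair hTp)
    have hbp : PolyFn (fun x => bits (a x)) := poly_bits hap
    have hMp : PolyFn M := PolyFn.succ (PolyFn.add (PolyFn.add (PolyFn.length hbp)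
      (PolyFn.const _)) (PolyFn.const _))
    refine ⟨fun x => pad (M x * M x + cidx e) (bits (a x)), isPolyTime_fun (poly_pad
      (PolyFn.add (PolyFn.mul hMp hMp) (PolyFn.const _)) hbp), fun x => ?_⟩
    set z := pad (M x * M x + cidx e) (bits (a x)) with hz
    have hMM : M x ≤ M x * M x := Nat.le_mul_of_pos_left _ (by show 0 < _ + 1; omega)
    have hMx : M x = (bits (a x)).length + cidx e + N + 1 := rfl
    have hlen : z.length = M x * M x + cidx e := pad_length (by omega)
    have hix : ix z.length = cidx e := by rw [hlen]; exact ix_eq (by omega)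
    have hun : unbits Arg z = a x := by
      rw [hz]; unfold pad
      exact unbits_append _ _
    have hbit : slowBit seqU s z.length = true := by
      unfold slowBit
      have h1 : z.length - Nat.sqrt z.length ^ 2 = cidx e := hix
      rw [h1, Bool.and_eq_true, decide_eq_true_iff]
      exact ⟨hN _ (by omega), (seqU_iff e).2 hsound⟩
    have hiff : ∀ w, RU (slowBit seqU s z.length :: z, w) = true ↔
        acc e x w (T x) = true := by
      intro w
      rw [RU_cons, tst_iff, hun, hbit, hix]
      simp [ha]
    obtain ⟨h1, h2⟩ := he x (T x) (by show _ ≤ _ + _ + p.eval x.length; omega)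
    have hTz : T x ≤ z.length := by
      have h3 : T x ≤ (bits (a x)).length := by
        rw [bits_length, ha]
        simp only [size_prod, size_nat]
        omega
      omega
    show A x = true ↔ _
    rw [h1]
    constructor
    · rintro ⟨w, hw, hw'⟩
      refine ⟨w, ?_, (hiff w).2 hw'⟩
      rw [Polynomial.eval_X]
      have h4 : p.eval x.length ≤ T x := by show p.eval x.length ≤ _ + p.eval x.length; omega
      show w.length ≤ z.length
      omega
    · rintro ⟨w, _, hw⟩
      have hw' := (hiff w).1 hw
      exact ⟨w, h2 w hw', hw'⟩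

end Pool.Agent.Lib.MP_d5150c_lc.H85
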